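import Mathlib

set_option autoImplicit false

namespace Pool.Agent.Results.MP_c0e3d8_co.Weak

variable {A : Type}

/-- The morphism of `A*` with letter images `f`. -/
def ext (f : A → List A) (l : List A) : List A := l.flatMap f

def pre (w : ℕ → A) (n : ℕ) : List A := (List.range n).map w

/-- `x` occurs in `w` at position `i`. -/
def Occ (x : List A) (w : ℕ → A) (i : ℕ) : Prop := ∀ j (h : j < x.length), x[j] = w (i + j)

def QP (w : ℕ → A) : Prop := ∃ x : List A, ∀ p, ∃ i ≤ p, p < i + x.length ∧ Occ x w i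

/-- `u` is the infinite word `g(w)`. -/
def Img (g : List A → List A) (w u : ℕ → A) : Prop :=
  (∀ n, Occ (g (pre w n)) u 0) ∧ ∀ m, ∃ n, m ≤ (g (pre w n)).length

/-- `v = f^ω(a)`. -/
def Gen (f : A → List A) (a : A) (v : ℕ → A) : Prop :=
  [a] <+: f a ∧ (∀ m, ∃ n, m ≤ ((ext f)^[n] [a]).length) ∧ ∀ n, Occ ((ext f)^[n] [a]) v 0

def Hom (g : List A → List A) : Prop := ∀ l m, g (l ++ m) = g l ++ g m

def sh (w : ℕ → A) (k : ℕ) : ℕ → A := fun j => w (k + j)

lemma hom (f : A → List A) (n : ℕ) : Hom (ext f)^[n] := by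
  induction n with
  | zero => exact fun _ _ => rfl
  | succ n ih => intro l m; simp only [Function.iterate_succ_apply, ext, List.flatMap_append]; exact ih _ _

lemma occ_app {l m : List A} {u : ℕ → A} {i : ℕ} :
    Occ (l ++ m) u i ↔ Occ l u i ∧ Occ m u (i + l.length) := by
  refine ⟨fun h => ⟨fun j k => ?_, fun j k => ?_⟩, fun ⟨h, k⟩ j q => ?_⟩
  · rw [← h j (by simp; omega), List.getElem_append_left]
  · rw [add_assoc, ← h _ (by simp; omega)]; simp
  · rw [List.getElem_append]
    split_ifs with c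
    · exact h j c
    · rw [k]; congr 1; omega

lemma pre_add (w : ℕ → A) (m n : ℕ) : pre w (m + n) = pre w m ++ pre (sh w m) n := by
  simp [pre, List.range_add, sh, Function.comp_def]

lemma eq_pre {l : List A} {u : ℕ → A} (h : Occ l u 0) : l = pre u l.length :=
  List.ext_getElem (by simp [pre]) fun j k _ => by simp [pre, h j k]

variable {g : List A → List A} {w u v : ℕ → A} {a : A}

lemma gp (hg : Hom g) (w : ℕ → A) {m n : ℕ} (h : m ≤ n) : ∃ t, g (pre w n) = g (pre w m) ++ t := by
  obtain ⟨k, rfl⟩ := Nat.exists_eq_add_of_le h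
  exact ⟨_, by rw [pre_add, hg]⟩

lemma ex (hg : Hom g) (h : ∀ m, ∃ n, m ≤ (g (pre w n)).length) : ∃ u, Img g w u := by
  choose N hN using h
  refine ⟨fun i => (g (pre w (N (i + 1))))[i]'(hN _), fun n j k => ?_, fun m => ⟨_, hN m⟩⟩
  have := hN (j + 1)
  simp only [zero_add]
  rcases le_total n (N (j + 1)) with c | c <;> obtain ⟨t, e⟩ := gp hg w c <;>
    simp only [e] <;> rw [List.getElem_append_left]

lemma shift (hg : Hom g) (h : Img g w u) (k : ℕ) : Img g (sh w k) (sh u (g (pre w k)).length) := by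
  refine ⟨fun n j q => ?_, fun m => ?_⟩
  · have := h.1 (k + n)
    rw [pre_add, hg, occ_app] at this
    simpa [sh] using this.2 j q
  · obtain ⟨n, q⟩ := h.2 ((g (pre w k)).length + m)
    obtain ⟨t, e⟩ := gp hg w (Nat.le_add_left n k)
    have := congrArg List.length e
    rw [pre_add, hg] at this
    exact ⟨n, by simp at this; omega⟩

lemma uniq {u' : ℕ → A} (h : Img g w u) (k : Img g w u') : u = u' := funext fun i => by
  obtain ⟨n, q⟩ := h.2 (i + 1)
  simpa using (h.1 n i q).symm.trans (k.1 n i q)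

lemma desc [Fintype A] (f : A → List A) (n : ℕ) : ∀ w v, ¬ QP w → Img (ext f)^[n] w v → QP v →
    ∃ w u, ¬ QP w ∧ Img (ext f) w u ∧ QP u := by
  induction n with
  | zero =>
    intro w v h k q
    obtain rfl : v = w := uniq k ⟨fun n j q => by simp [pre], k.2⟩
    exact absurd q h
  | succ n ih =>
    intro w v h k q
    have hg := hom f n
    have h1 : Hom (ext f) := hom f 1
    simp only [Img, Function.iterate_succ_apply] at k
    generalize (ext f)^[n] = g at *
    obtain ⟨C, hC⟩ : ∃ C, ∀ l, (g l).length ≤ C * (l.length + 1) := by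
      refine ⟨(g []).length + ∑ b, (g [b]).length, fun l => ?_⟩
      induction l with
      | nil => simp
      | cons b l ih =>
        have := Finset.single_le_sum (f := fun b => (g [b]).length) (fun _ _ => Nat.zero_le _)
          (Finset.mem_univ b)
        rw [← List.singleton_append, hg]
        simp only [List.length_append, List.length_singleton, mul_add] at ih ⊢
        omega
    obtain ⟨u, hu⟩ := ex (w := w) h1 fun m => by
      obtain ⟨n, e⟩ := k.2 (C * m + C + 1)
      refine ⟨n, not_lt.1 fun c => ?_⟩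
      have := Nat.mul_le_mul_left C c
      have := hC (ext f (pre w n))
      rw [Nat.succ_eq_add_one] at *
      omega
    by_cases c : QP u
    · exact ⟨w, u, h, hu, c⟩
    refine ih u v c ⟨fun m => ?_, fun m => ?_⟩ q
    · obtain ⟨n, e⟩ := hu.2 m
      obtain ⟨t, r⟩ := gp hg u e
      have := k.1 n
      rw [eq_pre (hu.1 n), r, occ_app] at this
      exact this.1
    · obtain ⟨n, e⟩ := k.2 m
      exact ⟨_, eq_pre (hu.1 n) ▸ e⟩

lemma per {d : ℕ} (h : sh w d = w) (m : ℕ) : sh w (d * m) = w := by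
  induction m with
  | zero => ext; simp [sh]
  | succ m ih => ext j; rw [← congrFun h j, sh, sh, ← congrFun ih (d + j), sh]; congr 1; ring

lemma nqp {e d : ℕ} (h0 : w 0 = a) (h1 : ∀ k < e, 0 < k → w k ≠ a) (h2 : sh (sh w e) d = sh w e)
    (h3 : w e = a) (h4 : ∀ k < d, 0 < k → w (e + k) ≠ a) (he : 0 < e) (hd : 0 < d)
    (h5 : ¬ (e = d ∧ ∀ k < d, w k = w (e + k))) : ¬ QP w := by
  rintro ⟨x, hx⟩
  obtain ⟨i, hi, l, o⟩ := hx 0
  obtain rfl : i = 0 := by omega
  have s : ∀ i, Occ x w i → w i = a := fun i h => by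
    have := (h 0 (by omega)).symm.trans (o 0 (by omega)); simpa [h0] using this
  obtain ⟨i, hi, l1, o1⟩ := hx (e - 1)
  obtain rfl : i = 0 := by_contra fun c => h1 i (by omega) (by omega) (s i o1)
  obtain ⟨i, hi, l2, o2⟩ := hx (e + d * x.length + (d - 1))
  have := Nat.le_mul_of_pos_left x.length hd
  have ie : e ≤ i := not_lt.1 fun c => h1 i c (by omega) (s i o2)
  have p : ∀ j, w (e + (d * ((i - e) / d) + j)) = w (e + j) := congrFun (per h2 _)
  have dm := Nat.div_add_mod (i - e) d
  have z : (i - e) % d = 0 := by_contra fun c => h4 _ (Nat.mod_lt _ hd) (Nat.pos_of_ne_zero c) <| by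
    rw [← p, dm, ← s i o2]; congr 1; omega
  have ag : ∀ k < x.length, w k = w (e + k) := fun k hk => by
    rw [← p, ← zero_add k, ← o k hk, o2 k hk]; congr 1; omega
  rcases lt_trichotomy e d with c | c | c
  · have : (i - e) / d ≤ x.length := Nat.le_of_lt_succ (Nat.lt_of_mul_lt_mul_left (a := d) (by
      rw [Nat.mul_succ]; omega))
    have := Nat.mul_le_mul_left d this
    exact h4 e c he (by rw [← ag e (by omega), h3])
  · exact h5 ⟨c, fun k hk => ag k (by omega)⟩
  · exact h1 d c hd (by rw [ag d (by omega)]; exact (congrFun h2 0).trans h3)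

lemma cov (hg : Hom g) (hv : Img g v v) {x : List A} (hx : ∀ p, ∃ i ≤ p, p < i + x.length ∧ Occ x v i)
    (h0 : v 0 = a) (hl : x.length ≤ (g [a]).length) (h : Img g w u) {i e : ℕ} (hi : v i = a)
    (ha : w e = a) (q : ∀ k ≤ e, w k = v (i + k)) :
    ∀ p < (g (pre w e)).length, ∃ t ≤ p, p < t + x.length ∧ Occ x u t := by
  intro p hp
  have k := shift hg hv i
  have e1 : pre w (e + 1) = pre (sh v i) (e + 1) :=
    List.map_congr_left fun k hk => q k (by simp at hk; omega)
  have l : (g (pre w (e + 1))).length = (g (pre w e)).length + (g [a]).length := by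
    rw [pre_add, hg]; simp [pre, sh, ha]
  generalize (g (pre v i)).length = P at k
  have ag : ∀ j < (g (pre w e)).length + x.length, u j = v (P + j) := fun j hj => by
    have := h.1 (e + 1) j (by omega)
    simp only [e1] at this l
    simpa [sh] using this.symm.trans (k.1 (e + 1) j (by omega))
  obtain ⟨t, ht, c, o⟩ := hx (P + p)
  by_cases b : t ≤ P
  · refine ⟨0, by omega, by omega, fun j hj => ?_⟩
    obtain ⟨z, hz, -, o⟩ := hx 0
    obtain rfl : z = 0 := by omega
    have m1 := hv.1 1
    have m2 := k.1 1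
    simp only [pre, List.range_one, List.map_cons, List.map_nil, sh, add_zero, h0, hi] at m1 m2
    rw [ag _ (by omega), o j hj, ← m1 j (by omega), m2 j (by omega)]; rfl
  · exact ⟨t - P, by omega, by omega, fun j hj => by rw [ag _ (by omega), o j hj]; congr 1; omega⟩

theorem result {A : Type} [Fintype A] (f : A → List A) (a : A) (v : ℕ → A) (hv : Gen f a v)
    (hq : QP v) (hf : ∀ k, f a ≠ List.replicate k a) :
    ∃ w u : ℕ → A, ¬ QP w ∧ Img (ext f) w u ∧ QP u := by
  classical
  obtain ⟨⟨t, ht⟩, un, oc⟩ := hv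
  obtain ⟨x, hx⟩ := hq
  have h0 : v 0 = a := (oc 0 0 (by simp)).symm
  have mono : ∀ n m, ((ext f)^[m] [a]).length ≤ ((ext f)^[n + m] [a]).length := fun n m => by
    refine monotone_nat_of_le_succ (f := fun m => ((ext f)^[m] [a]).length) (fun m => ?_) (by omega)
    rw [Function.iterate_succ_apply, show ext f [a] = [a] ++ t by simp [ext, ht], hom f m]; simp
  have fix : ∀ n, Img (ext f)^[n] v v := fun n => ⟨fun k => by
    obtain ⟨m, e⟩ := un k
    obtain ⟨t, r⟩ := gp (hom f n) v e
    have := oc (n + m)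
    rw [Function.iterate_add_apply, eq_pre (oc m), r, occ_app] at this
    exact this.1, fun k => by
    obtain ⟨m, e⟩ := un k
    exact ⟨_, by rw [← eq_pre (oc m), ← Function.iterate_add_apply]; exact e.trans (mono n m)⟩⟩
  obtain ⟨z, hz, lx, ox⟩ := hx 0
  obtain rfl : z = 0 := by omega
  have nx : ∀ i, ∃ e, 0 < e ∧ v (i + e) = a := fun i => by
    obtain ⟨j, -, l, o⟩ := hx (i + x.length)
    refine ⟨j - i, by omega, ?_⟩
    rw [show i + (j - i) = j + 0 by omega, ← o 0 (by omega), ox 0 (by omega), h0]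
  have nx' : ∀ i, ∃ e, 0 < e ∧ v (i + e) = a ∧ ∀ k < e, 0 < k → v (i + k) ≠ a := fun i =>
    ⟨_, (Nat.find_spec (nx i)).1, (Nat.find_spec (nx i)).2, fun k h c q => Nat.find_min (nx i) h ⟨c, q⟩⟩
  obtain ⟨d, d0, d1, d2⟩ := nx' 0
  simp only [zero_add] at d1 d2 lx
  obtain ⟨n, hn⟩ := un (x.length + d)
  have hg := hom f n
  have fx := fix n
  have ds := desc f n
  have og := oc n
  generalize (ext f)^[n] = g at hn hg fx ds og
  by_cases c : ∀ i, v i = a → v (i + d) = a ∧ ∀ k < d, v (i + k) = v k
  · have m : ∀ m, v (d * m) = a := fun m => by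
      induction m with
      | zero => exact h0
      | succ m ih => exact (c _ ih).1
    have md : ∀ k, v k = v (k % d) := fun k => by
      rw [← (c _ (m (k / d))).2 _ (Nat.mod_lt _ d0), Nat.div_add_mod]
    have pv : sh v d = v := funext fun k => by rw [sh, md, Nat.add_mod_left, ← md]
    let w : ℕ → A := fun k => k.casesOn a v
    have sw : sh w 1 = v := funext fun k => by rw [sh, add_comm]
    obtain ⟨u, hu⟩ := ex (w := w) hg fun m => by
      obtain ⟨n, e⟩ := fx.2 m
      exact ⟨1 + n, by rw [pre_add, hg, sw]; simp; omega⟩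
    have su : sh u (g [a]).length = v := uniq (sw ▸ shift hg hu 1) fx
    refine ds w u (nqp (e := 1) (d := d) rfl (by omega) (by rw [sw, pv]) h0
      (fun k h c => by rw [add_comm]; exact d2 k h c) one_pos d0 fun q => hf (f a).length ?_) hu
      ⟨g [a], fun p => ?_⟩
    · refine List.eq_replicate_iff.2 ⟨rfl, fun b hb => ?_⟩
      obtain ⟨j, k, rfl⟩ := List.getElem_of_mem hb
      have := oc 1 j (by simpa [ext] using k)
      rw [md, ← q.1, Nat.mod_one, h0] at this
      simpa [ext] using this
    · by_cases b : p < (g [a]).length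
      · exact ⟨0, by omega, by omega, hu.1 1⟩
      · have := Nat.div_add_mod (p - (g [a]).length) d
        have := Nat.mod_lt (p - (g [a]).length) d0
        refine ⟨(g [a]).length + d * ((p - (g [a]).length) / d), by omega, by omega, fun j k => ?_⟩
        rw [og j k, ← congrFun (per pv ((p - (g [a]).length) / d)), sh, ← congrFun su, sh]
        congr 1; omega
  push Not at c
  obtain ⟨i, hi, c⟩ := c
  obtain ⟨e, e0, e1, e2⟩ := nx' i
  let w : ℕ → A := fun k => if k < e then v (i + k) else v ((k - e) % d)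
  have sw : ∀ k, sh w e k = v (k % d) := fun k => by simp [sh, w]
  have pw : sh (sh w e) d = sh w e := funext fun k => by rw [sh, sw, sw, Nat.add_mod_left]
  have we : w e = a := (sw 0).trans (by simpa using h0)
  have lr : 0 < (g (pre (sh w e) d)).length := by
    obtain ⟨t, r⟩ := gp hg (sh w e) d0
    rw [r]; simp [pre, sh, we]; omega
  obtain ⟨u, hu⟩ := ex (w := w) hg fun m => ⟨e + d * m, by
    rw [pre_add, hg, List.length_append]
    refine le_add_left ?_
    induction m with
    | zero => simp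
    | succ m ih => rw [Nat.mul_succ, pre_add, hg, per pw, List.length_append]; omega⟩
  have h1 := shift hg hu e
  have pu := uniq (pw ▸ shift hg h1 d) h1
  refine ds w u (nqp (by simp [w, e0, hi]) (fun k h c => by simpa [w, h] using e2 k h c) pw we
    (fun k h c => by rw [show w (e + k) = _ from sw k, Nat.mod_eq_of_lt h]; exact d2 k h c) e0 d0 ?_) hu
    ⟨x, fun p => ?_⟩
  · rintro ⟨rfl, q⟩
    obtain ⟨k, l, r⟩ := c e1
    exact r (by simpa [w, l, Nat.mod_eq_of_lt l] using q k l)
  have c1 := cov hg fx hx h0 (by omega) hu hi we fun k h => by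
    rcases h.eq_or_lt with rfl | h
    · rw [we, e1]
    · simp [w, h]
  have c2 := cov hg fx hx h0 (by omega) h1 h0 ((sw d).trans (by simpa using h0)) fun k h => by
    rcases h.eq_or_lt with rfl | h
    · simp [sw, h0, d1]
    · simp [sw, Nat.mod_eq_of_lt h]
  generalize (g (pre w e)).length = S at *
  generalize (g (pre (sh w e) d)).length = R at *
  by_cases b : p < S
  · exact c1 p b
  · have := Nat.div_add_mod (p - S) R
    obtain ⟨t, _, _, o⟩ := c2 _ (Nat.mod_lt (p - S) lr)
    refine ⟨S + R * ((p - S) / R) + t, by omega, by omega, fun j k => ?_⟩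
    rw [o j k, ← congrFun (per pu ((p - S) / R)), sh, sh]
    congr 1; omega

end Pool.Agent.Results.MP_c0e3d8_co.Weak
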